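import Pool.Agent.helper59.GF.Spec

set_option autoImplicit false

/-!
# gf:DET (helper31)
-/

namespace Pool.Agent.GF

open Filter Topology

/-- the matrix of the orientation determinant -/
noncomputable def DET_M (p : ℕ) (s x : Fin (p + 2) → ℝ) : Matrix (Fin (p + 2)) (Fin (p + 2)) ℝ :=
  Matrix.of fun r j : Fin (p + 2) =>
    (Fin.cons 1 (Fin.cons (x r) (Yl p (s r)) : Fin (p + 1) → ℝ) : Fin (p + 2) → ℝ) j

lemma DET_M_zero (p : ℕ) (s x : Fin (p + 2) → ℝ) (r : Fin (p + 2)) :
    DET_M p s x r 0 = 1 := rfl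

lemma DET_M_one (p : ℕ) (s x : Fin (p + 2) → ℝ) (r : Fin (p + 2)) :
    DET_M p s x r 1 = x r := rfl

lemma DET_M_succ (p : ℕ) (s x : Fin (p + 2) → ℝ) (r : Fin (p + 2)) (q : Fin p) :
    DET_M p s x r q.succ.succ = Yl p (s r) q := rfl

lemma DET_upd (p : ℕ) (s x : Fin (p + 2) → ℝ) :
    DET_M p s x = (DET_M p s 0).updateCol 1 x := by
  ext r j
  refine Fin.cases ?_ (fun j => Fin.cases ?_ (fun q => ?_) j) j
  · rw [Matrix.updateCol_ne (by simp)]
    rfl
  · have h : (Fin.succ 0 : Fin (p + 2)) = 1 := rfl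
    rw [h, Matrix.updateCol_self, DET_M_one]
  · rw [Matrix.updateCol_ne (by
      intro h
      have h2 := congrArg Fin.val h
      simp at h2)]
    rfl

/-- the polynomial `∏ (X - q - 1/2)` -/
noncomputable def DET_E (p : ℕ) : Polynomial ℝ :=
  ∏ q : Fin p, (Polynomial.X - Polynomial.C (((q : ℕ) : ℝ) + 1 / 2))

/-- the same without one factor -/
noncomputable def DET_F (p : ℕ) (q : Fin p) : Polynomial ℝ :=
  ∏ q' ∈ Finset.univ.erase q, (Polynomial.X - Polynomial.C (((q' : ℕ) : ℝ) + 1 / 2))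

lemma DET_E_eval (p : ℕ) (s : ℝ) : (DET_E p).eval s = ell p s := by
  unfold DET_E ell
  rw [Polynomial.eval_prod]
  refine Finset.prod_congr rfl fun q _ => ?_
  simp only [Polynomial.eval_sub, Polynomial.eval_X, Polynomial.eval_C]
  ring

lemma DET_F_eval (p : ℕ) (s : ℝ) (h : ell p s ≠ 0) (q : Fin p) :
    (DET_F p q).eval s = ell p s * Yl p s q := by
  have h1 : ell p s = (s - ((q : ℕ) : ℝ) - 1 / 2) *
      ∏ q' ∈ Finset.univ.erase q, (s - ((q' : ℕ) : ℝ) - 1 / 2) := by
    unfold ell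
    rw [Finset.mul_prod_erase Finset.univ (fun q' : Fin p => s - ((q' : ℕ) : ℝ) - 1 / 2)
      (Finset.mem_univ q)]
  have h2 : s - ((q : ℕ) : ℝ) - 1 / 2 ≠ 0 := by
    intro h0
    rw [h0, zero_mul] at h1
    exact h h1
  have h3 : (DET_F p q).eval s = ∏ q' ∈ Finset.univ.erase q, (s - ((q' : ℕ) : ℝ) - 1 / 2) := by
    unfold DET_F
    rw [Polynomial.eval_prod]
    refine Finset.prod_congr rfl fun q' _ => ?_
    simp only [Polynomial.eval_sub, Polynomial.eval_X, Polynomial.eval_C]
    ring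
  have h4 : Yl p s q = 1 / (s - ((q : ℕ) : ℝ) - 1 / 2) := rfl
  rw [h3, h1, h4, mul_comm (s - ((q : ℕ) : ℝ) - 1 / 2), mul_assoc, mul_one_div_cancel h2, mul_one]

lemma DET_E_monic (p : ℕ) : (DET_E p).Monic :=
  Polynomial.monic_prod_of_monic _ _ fun _ _ => Polynomial.monic_X_sub_C _

lemma DET_E_deg (p : ℕ) : (DET_E p).natDegree = p := by
  unfold DET_E
  rw [Polynomial.natDegree_prod_of_monic _ _ fun q _ => Polynomial.monic_X_sub_C _,
    Finset.sum_congr rfl (fun q _ => Polynomial.natDegree_X_sub_C _)]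
  simp

lemma DET_F_deg (p : ℕ) (q : Fin p) : (DET_F p q).natDegree < p := by
  unfold DET_F
  rw [Polynomial.natDegree_prod_of_monic _ _ fun q _ => Polynomial.monic_X_sub_C _]
  have hp : 0 < p := q.pos
  rw [Finset.sum_congr rfl (fun q _ => Polynomial.natDegree_X_sub_C _)]
  simp
  omega

lemma DET_F_other (p : ℕ) (q q' : Fin p) (h : q' ≠ q) :
    (DET_F p q').eval (((q : ℕ) : ℝ) + 1 / 2) = 0 := by
  unfold DET_F
  rw [Polynomial.eval_prod, Finset.prod_eq_zero (Finset.mem_erase.2 ⟨h.symm, Finset.mem_univ q⟩)]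
  simp

lemma DET_F_self (p : ℕ) (q : Fin p) :
    (DET_F p q).eval (((q : ℕ) : ℝ) + 1 / 2) ≠ 0 := by
  unfold DET_F
  rw [Polynomial.eval_prod, Finset.prod_ne_zero_iff]
  intro q' hq'
  simp only [Polynomial.eval_sub, Polynomial.eval_X, Polynomial.eval_C]
  intro h
  apply (Finset.mem_erase.1 hq').1
  apply Fin.ext
  have h2 : ((q : ℕ) : ℝ) = ((q' : ℕ) : ℝ) := by linarith
  exact_mod_cast h2.symm

lemma DET_ne (p : ℕ) (s : Fin (p + 2) → ℝ) (hs : Function.Injective s)
    (hell : ∀ r, ell p (s r) ≠ 0) :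
    (DET_M p s (fun r => s r ^ (p + 1) / ell p (s r))).det ≠ 0 := by
  intro hdet
  obtain ⟨v, hv, hMv⟩ := Matrix.exists_mulVec_eq_zero_iff.2 hdet
  apply hv
  set Q : Polynomial ℝ := Polynomial.C (v 0) * DET_E p + Polynomial.C (v 1) * Polynomial.X ^ (p + 1) +
    ∑ q : Fin p, Polynomial.C (v q.succ.succ) * DET_F p q with hQ
  have hrow : ∀ r, v 0 + (s r ^ (p + 1) / ell p (s r) * v 1 +
      ∑ q : Fin p, Yl p (s r) q * v q.succ.succ) = 0 := by
    intro r
    have h1 := congrFun hMv r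
    rw [Matrix.mulVec, dotProduct, Fin.sum_univ_succ, Fin.sum_univ_succ, DET_M_zero, one_mul] at h1
    exact h1
  have heval : ∀ r, Q.eval (s r) = 0 := by
    intro r
    rw [hQ]
    simp only [Polynomial.eval_add, Polynomial.eval_mul, Polynomial.eval_C, Polynomial.eval_pow,
      Polynomial.eval_X, Polynomial.eval_finsetSum, DET_E_eval]
    have h1 : ∑ q : Fin p, v q.succ.succ * (DET_F p q).eval (s r) =
        ell p (s r) * ∑ q : Fin p, Yl p (s r) q * v q.succ.succ := by
      rw [Finset.mul_sum]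
      refine Finset.sum_congr rfl fun q _ => ?_
      rw [DET_F_eval p (s r) (hell r) q]
      ring
    rw [h1]
    have h2 : v 0 * ell p (s r) + v 1 * s r ^ (p + 1) +
        ell p (s r) * ∑ q : Fin p, Yl p (s r) q * v q.succ.succ =
        ell p (s r) * (v 0 + (s r ^ (p + 1) / ell p (s r) * v 1 +
          ∑ q : Fin p, Yl p (s r) q * v q.succ.succ)) := by
      have h3 := hell r
      field_simp
      ring
    rw [h2, hrow r, mul_zero]
  have hdegF : ∀ q : Fin p, (DET_F p q).natDegree < p := DET_F_deg p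
  have hdeg : Q.natDegree < Fintype.card (Fin (p + 2)) := by
    rw [Fintype.card_fin]
    have h1 : Q.natDegree ≤ p + 1 := by
      rw [hQ]
      refine Polynomial.natDegree_add_le_of_degree_le (Polynomial.natDegree_add_le_of_degree_le
        ?_ ?_) ?_
      · exact (Polynomial.natDegree_C_mul_le _ _).trans (by rw [DET_E_deg]; omega)
      · exact Polynomial.natDegree_C_mul_X_pow_le _ _
      · refine Polynomial.natDegree_sum_le_of_forall_le _ _ fun q _ => ?_
        exact (Polynomial.natDegree_C_mul_le _ _).trans (by have := hdegF q; omega)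
    omega
  have hQ0 : Q = 0 := Polynomial.eq_zero_of_natDegree_lt_card_of_eval_eq_zero Q hs heval hdeg
  have hFc : ∀ (n : ℕ), p ≤ n → ∀ q : Fin p, (DET_F p q).coeff n = 0 := by
    intro n hn q
    exact Polynomial.coeff_eq_zero_of_natDegree_lt (lt_of_lt_of_le (hdegF q) hn)
  have hc1 : v 1 = 0 := by
    have h1 : Q.coeff (p + 1) = 0 := by rw [hQ0, Polynomial.coeff_zero]
    rw [hQ] at h1
    simp only [Polynomial.coeff_add, Polynomial.coeff_C_mul, Polynomial.finsetSum_coeff,
      Polynomial.coeff_X_pow] at h1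
    rw [Polynomial.coeff_eq_zero_of_natDegree_lt (p := DET_E p) (by rw [DET_E_deg]; omega),
      Finset.sum_eq_zero (fun q _ => by rw [hFc (p + 1) (by omega) q, mul_zero])] at h1
    simpa using h1
  have hc0 : v 0 = 0 := by
    have h1 : Q.coeff p = 0 := by rw [hQ0, Polynomial.coeff_zero]
    rw [hQ] at h1
    simp only [Polynomial.coeff_add, Polynomial.coeff_C_mul, Polynomial.finsetSum_coeff,
      Polynomial.coeff_X_pow] at h1
    have h2 : (DET_E p).coeff p = 1 := by
      have h3 := DET_E_monic p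
      rw [Polynomial.Monic, Polynomial.leadingCoeff, DET_E_deg] at h3
      exact h3
    rw [h2, Finset.sum_eq_zero (fun q _ => by rw [hFc p le_rfl q, mul_zero]), hc1] at h1
    simpa using h1
  have hc2 : ∀ q : Fin p, v q.succ.succ = 0 := by
    intro q
    have h1 : Q.eval (((q : ℕ) : ℝ) + 1 / 2) = 0 := by rw [hQ0, Polynomial.eval_zero]
    rw [hQ, hc0, hc1] at h1
    simp only [Polynomial.eval_add, Polynomial.eval_mul, Polynomial.eval_C,
      Polynomial.eval_finsetSum, zero_mul, zero_add] at h1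
    rw [Finset.sum_eq_single q (fun q' _ h => by rw [DET_F_other p q q' h, mul_zero])
      (fun h => (h (Finset.mem_univ q)).elim)] at h1
    exact (mul_eq_zero.1 h1).resolve_right (DET_F_self p q)
  funext j
  refine Fin.cases hc0 (fun j => Fin.cases hc1 (fun q => hc2 q) j) j

theorem DET (hUNQ : UNQ_stmt) : DET_stmt := by
  intro p s hs hell
  set D : (Fin (p + 2) → ℝ) →ₗ[ℝ] ℝ :=
    (LinearMap.proj (1 : Fin (p + 2))).comp (Matrix.cramer (DET_M p s 0)) with hD
  have hdet : ∀ x, (DET_M p s x).det = D x := by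
    intro x
    rw [DET_upd, ← Matrix.cramer_apply]
    rfl
  have hsum : ∀ x, D x = ∑ r, x r * D (fun j => if r = j then 1 else 0) := by
    intro x
    rw [LinearMap.pi_apply_eq_sum_univ D x]
    rfl
  have h1 : ∑ r, D (fun j => if r = j then 1 else 0) = 0 := by
    have h2 : D (fun _ => 1) = 0 := by
      rw [← hdet]
      exact Matrix.det_zero_of_column_eq (i := 0) (j := 1) (by simp) (fun r => by
        rw [DET_M_zero, DET_M_one])
    rw [hsum] at h2
    simpa using h2
  have h3 : ∀ q : Fin p, ∑ r, D (fun j => if r = j then 1 else 0) * Yl p (s r) q = 0 := by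
    intro q
    have h2 : D (fun r => Yl p (s r) q) = 0 := by
      rw [← hdet]
      refine Matrix.det_zero_of_column_eq (i := 1) (j := q.succ.succ) ?_ (fun r => by
        rw [DET_M_one, DET_M_succ])
      intro h
      have h2 := congrArg Fin.val h
      simp at h2
    rw [hsum] at h2
    exact Eq.trans (Finset.sum_congr rfl fun r _ => mul_comm _ _) h2
  obtain ⟨c, hc⟩ := hUNQ p s hs hell _ h1 h3
  have hfin : ∀ x, (DET_M p s x).det = c * ∑ r, mu p s r * x r := by
    intro x
    rw [hdet, hsum, Finset.mul_sum]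
    refine Finset.sum_congr rfl fun r _ => ?_
    rw [hc r]
    ring
  refine ⟨c, ?_, hfin⟩
  rintro rfl
  apply DET_ne p s hs hell
  rw [hfin, zero_mul]

end Pool.Agent.GF
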